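import Pool.Agent.Y304.EB.Fin

/-!
Ill-posedness of the Euler equations in `B¹_{∞,q}` at the zero datum and along a half-line of
steady flows; norm inflation from `B¹_{∞,q₀}` to `B¹_{∞,q₁}` for all finite indices.
-/

set_option autoImplicit false

open Set
open scoped ContDiff ENNReal

namespace Pool.Agent.Results.MP_f6d183_an.InflationFromZero

open Pool.Agent.Helper865.EulerBesov Pool.Agent.Y304.EB

/-- In every dimension `n ≥ 2` there is a periodic field `u₀ ≠ 0`, in `B¹_{∞,q}` for all `q > 1`,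
all whose nonnegative multiples `a u₀` (also `0`) are steady Euler flows, such that for all
`1 < q₀, q₁ < ∞` and all `a ≥ 0` the Euler equations are not well-posed at the datum `a u₀`, not
even with data in `B¹_{∞,q₀}` and solutions in `C([0,T]; B¹_{∞,q₁})`. Moreover for each finite set
of times, each `δ > 0` and `R < ∞` there is a smooth periodic datum `v₀` with
`‖v₀ - a u₀‖_{B¹_{∞,q₀}} < δ` such that `‖u(t)‖_{B¹_{∞,q₁}} > R` at all these times, for all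
periodic solutions `u` and for the unique solution if there is one. -/
theorem result (n : ℕ) (hn : 2 ≤ n) (χ : E n → ℝ) (hχ : IsCutoff χ) :
    ∃ u₀ : E n → E n, u₀ ≠ 0 ∧ IsPer u₀ ∧ ∀ a : ℝ, 0 ≤ a →
      (∀ q T : ℝ, 1 < q → IsSolution χ q T (a • u₀) fun _ => a • u₀) ∧
      ∀ q₀ q₁ : ℝ, 1 < q₀ → 1 ≤ q₁ →
        ¬ WellPosedAt χ q₀ q₁ (a • u₀) ∧
        ∀ (F : Finset ℝ) (δ R : ℝ≥0∞), (∀ t ∈ F, 0 < t) → 0 < δ → R < ⊤ →
          ∃ v₀ : E n → E n, ContDiff ℝ ∞ v₀ ∧ IsPer v₀ ∧ (∀ q : ℝ, 1 < q → MemBesov χ q v₀) ∧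
            DivFree v₀ ∧ besovNorm χ q₀ (v₀ - a • u₀) < δ ∧
            ∀ t ∈ F, ∀ r : ℝ, 0 < r → ∀ u, IsSolution χ r t v₀ u →
              ((∀ s ∈ Icc 0 t, IsPer (u s)) ∨
                ∀ v, IsSolution χ r t v₀ v → ∀ s ∈ Icc 0 t, v s = u s) →
              R < besovNorm χ q₁ (u t) := by
  obtain ⟨d, rfl⟩ : ∃ d, n = d + 2 := ⟨n - 2, by omega⟩
  exact ⟨UInf d, UInf_ne, isPer_UInf, fun a ha => ⟨fun q T hq => sol_multiple hχ hq ha T,
    fun q₀ q₁ hq₀ hq₁ => ⟨not_wp hχ hq₀ hq₁ ha, fun F δ R hF hδ hR =>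
      infl_all hχ hq₀ (by linarith) ha F hF hδ hR⟩⟩⟩

end Pool.Agent.Results.MP_f6d183_an.InflationFromZero
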